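import Pool.Agent.T2H86.RC.Stm

set_option autoImplicit false

namespace Pool.Agent.T2H86.RC

open Finset MeasureTheory ProbabilityTheory

namespace BCA

/-- the exceptional event -/
def Ev {Ω : Type} (F : ℕ → ℝ → Ω → ℂ) (m r x : ℕ) : Set Ω :=
  ⋃ j ∈ Icc (-((x : ℤ) ^ (m + 5) + 1)) ((x : ℤ) ^ (m + 5) + 1),
    {ω | (x : ℝ) ^ (1 / (r : ℝ)) ≤ ‖F x ((j : ℝ) / (x : ℝ) ^ 5) ω‖}

lemma markov {Ω : Type} [MeasurableSpace Ω] (μ : Measure Ω) [IsProbabilityMeasure μ]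
    (F : ℕ → ℝ → Ω → ℂ) (hF : ∀ x t, Measurable (F x t)) (K : ℝ) (x : ℕ) (hx : 1 ≤ x)
    (hb : ∀ ω, ∀ t : ℝ, ‖F x t ω‖ ≤ K * (x : ℝ) ^ 5) (r k : ℕ) (hr : 1 ≤ r) (C : ℝ) (t : ℝ)
    (hC : ∫ ω, ‖F x t ω‖ ^ (2 * k) ∂μ ≤ C * (x : ℝ) ^ (1 : ℝ)) :
    μ.real {ω | (x : ℝ) ^ (1 / (r : ℝ)) ≤ ‖F x t ω‖} ≤ C * x / ((x : ℝ) ^ (1 / (r : ℝ))) ^ (2 * k) := by
  have hx0 : (0 : ℝ) < x := by exact_mod_cast hx
  have hp : 0 < ((x : ℝ) ^ (1 / (r : ℝ))) ^ (2 * k) := by positivity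
  rw [le_div_iff₀ hp]
  have hint : Integrable (fun ω => ‖F x t ω‖ ^ (2 * k)) μ := by
    refine Integrable.of_bound ((hF x t).norm.pow_const (2 * k)).aestronglyMeasurable ((K * (x : ℝ) ^ 5) ^ (2 * k))
      (Filter.Eventually.of_forall fun ω => ?_)
    rw [Real.norm_eq_abs, abs_of_nonneg (by positivity)]
    exact pow_le_pow_left₀ (norm_nonneg _) (hb ω t) _
  have h1 := mul_meas_ge_le_integral_of_nonneg (μ := μ) (f := fun ω => ‖F x t ω‖ ^ (2 * k))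
    (ae_of_all μ fun ω => pow_nonneg (norm_nonneg _) (2 * k)) hint (((x : ℝ) ^ (1 / (r : ℝ))) ^ (2 * k))
  have h2 : {ω | (x : ℝ) ^ (1 / (r : ℝ)) ≤ ‖F x t ω‖} ⊆
      {ω | ((x : ℝ) ^ (1 / (r : ℝ))) ^ (2 * k) ≤ ‖F x t ω‖ ^ (2 * k)} := by
    intro ω hω
    have hω' : (x : ℝ) ^ (1 / (r : ℝ)) ≤ ‖F x t ω‖ := hω
    show ((x : ℝ) ^ (1 / (r : ℝ))) ^ (2 * k) ≤ ‖F x t ω‖ ^ (2 * k)
    exact pow_le_pow_left₀ (Real.rpow_nonneg hx0.le _) hω' _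
  have h3 : μ.real {ω | (x : ℝ) ^ (1 / (r : ℝ)) ≤ ‖F x t ω‖} ≤
      μ.real {ω | ((x : ℝ) ^ (1 / (r : ℝ))) ^ (2 * k) ≤ ‖F x t ω‖ ^ (2 * k)} := measureReal_mono h2 (measure_ne_top μ _)
  rw [Real.rpow_one] at hC
  calc μ.real {ω | (x : ℝ) ^ (1 / (r : ℝ)) ≤ ‖F x t ω‖} * ((x : ℝ) ^ (1 / (r : ℝ))) ^ (2 * k)
      ≤ μ.real {ω | ((x : ℝ) ^ (1 / (r : ℝ))) ^ (2 * k) ≤ ‖F x t ω‖ ^ (2 * k)} * ((x : ℝ) ^ (1 / (r : ℝ))) ^ (2 * k) := by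
        gcongr
    _ = ((x : ℝ) ^ (1 / (r : ℝ))) ^ (2 * k) *
        μ.real {ω | ((x : ℝ) ^ (1 / (r : ℝ))) ^ (2 * k) ≤ ‖F x t ω‖ ^ (2 * k)} := mul_comm _ _
    _ ≤ _ := h1
    _ ≤ C * x := hC

lemma card_net (x m : ℕ) (hx : 1 ≤ x) :
    (((Icc (-((x : ℤ) ^ (m + 5) + 1)) ((x : ℤ) ^ (m + 5) + 1)).card : ℕ) : ℝ) ≤ 5 * (x : ℝ) ^ (m + 5) := by
  rw [Int.card_Icc]
  have h1 : (1 : ℤ) ≤ (x : ℤ) ^ (m + 5) := one_le_pow₀ (by exact_mod_cast hx)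
  have h2 : ((((x : ℤ) ^ (m + 5) + 1 + 1 - -((x : ℤ) ^ (m + 5) + 1)).toNat : ℕ) : ℤ) ≤ 5 * (x : ℤ) ^ (m + 5) := by
    rw [Int.toNat_of_nonneg (by linarith)]
    linarith
  exact_mod_cast h2

lemma ev_bound {Ω : Type} [MeasurableSpace Ω] (μ : Measure Ω) [IsProbabilityMeasure μ]
    (F : ℕ → ℝ → Ω → ℂ) (hF : ∀ x t, Measurable (F x t)) (K : ℝ)
    (hb : ∀ x : ℕ, 1 ≤ x → ∀ ω, ∀ t : ℝ, ‖F x t ω‖ ≤ K * (x : ℝ) ^ 5) (m r : ℕ) (hr : 1 ≤ r) (C : ℝ) (hC0 : 0 ≤ C)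
    (hC : ∀ x : ℕ, 1 ≤ x → ∀ t : ℝ, ∫ ω, ‖F x t ω‖ ^ (2 * (r * (m + 8))) ∂μ ≤ C * (x : ℝ) ^ (1 : ℝ))
    (x : ℕ) (hx : 1 ≤ x) : μ.real (Ev F m r x) ≤ 5 * C * (1 / (x : ℝ) ^ 2) := by
  have hx1 : (1 : ℝ) ≤ x := by exact_mod_cast hx
  have hx0 : (0 : ℝ) < x := by linarith
  have hr0 : (0 : ℝ) < r := by exact_mod_cast hr
  have h1 : ((x : ℝ) ^ (1 / (r : ℝ))) ^ (2 * (r * (m + 8))) = (x : ℝ) ^ (2 * m + 16) := by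
    rw [← Real.rpow_natCast, ← Real.rpow_mul hx0.le, ← Real.rpow_natCast]
    congr 1
    push_cast
    field_simp
    ring
  have h2 : ∀ j ∈ Icc (-((x : ℤ) ^ (m + 5) + 1)) ((x : ℤ) ^ (m + 5) + 1),
      μ.real {ω | (x : ℝ) ^ (1 / (r : ℝ)) ≤ ‖F x ((j : ℝ) / (x : ℝ) ^ 5) ω‖} ≤ C * x / (x : ℝ) ^ (2 * m + 16) := by
    intro j _
    rw [← h1]
    exact markov μ F hF K x hx (hb x hx) r _ hr C _ (hC x hx _)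
  calc μ.real (Ev F m r x) ≤ ∑ j ∈ Icc (-((x : ℤ) ^ (m + 5) + 1)) ((x : ℤ) ^ (m + 5) + 1),
        μ.real {ω | (x : ℝ) ^ (1 / (r : ℝ)) ≤ ‖F x ((j : ℝ) / (x : ℝ) ^ 5) ω‖} := measureReal_biUnion_finset_le _ _
    _ ≤ ∑ j ∈ Icc (-((x : ℤ) ^ (m + 5) + 1)) ((x : ℤ) ^ (m + 5) + 1), C * x / (x : ℝ) ^ (2 * m + 16) := sum_le_sum h2
    _ = ((Icc (-((x : ℤ) ^ (m + 5) + 1)) ((x : ℤ) ^ (m + 5) + 1)).card : ℝ) * (C * x / (x : ℝ) ^ (2 * m + 16)) := by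
        rw [sum_const, nsmul_eq_mul]
    _ ≤ (5 * (x : ℝ) ^ (m + 5)) * (C * x / (x : ℝ) ^ (2 * m + 16)) := by
        gcongr
        exact card_net x m hx
    _ = 5 * C * ((x : ℝ) ^ (m + 6) / (x : ℝ) ^ (2 * m + 16)) := by ring
    _ ≤ 5 * C * (1 / (x : ℝ) ^ 2) := by
        refine mul_le_mul_of_nonneg_left ?_ (by positivity)
        rw [div_le_div_iff₀ (by positivity) (by positivity), one_mul, ← pow_add]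
        exact pow_le_pow_right₀ hx1 (by omega)

lemma key {Ω : Type} [MeasurableSpace Ω] (μ : Measure Ω) [IsProbabilityMeasure μ]
    (F : ℕ → ℝ → Ω → ℂ) (hF : ∀ x t, Measurable (F x t)) (K : ℝ)
    (hmom : ∀ (k : ℕ) (ε : ℝ), 0 < ε → ∃ C : ℝ, ∀ x : ℕ, 1 ≤ x → ∀ t : ℝ,
      ∫ ω, ‖F x t ω‖ ^ (2 * k) ∂μ ≤ C * (x : ℝ) ^ ε)
    (hL : ∀ x : ℕ, 1 ≤ x → ∀ ω, (∀ t t' : ℝ, ‖F x t ω - F x t' ω‖ ≤ K * (x : ℝ) ^ 5 * |t - t'|) ∧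
      ∀ t : ℝ, ‖F x t ω‖ ≤ K * (x : ℝ) ^ 5) (hK : 0 ≤ K) (m r : ℕ) (hr : 1 ≤ r) :
    ∀ᵐ ω ∂μ, ∃ N : ℕ, ∀ x : ℕ, N ≤ x → 1 ≤ x → ∀ t : ℝ, |t| ≤ (x : ℝ) ^ m →
      ‖F x t ω‖ ≤ (x : ℝ) ^ (1 / (r : ℝ)) + K := by
  obtain ⟨C, hC⟩ := hmom (r * (m + 8)) 1 one_pos
  have hC0 : 0 ≤ C := by
    have h1 := hC 1 le_rfl 0
    have h2 : 0 ≤ ∫ ω, ‖F 1 0 ω‖ ^ (2 * (r * (m + 8))) ∂μ := integral_nonneg fun ω => by positivity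
    simp at h1
    linarith
  have h1 : (∑' n : ℕ, μ (Ev F m r (n + 1))) ≠ ⊤ := by
    have h2 : Summable (fun n : ℕ => 5 * C * (1 / ((n + 1 : ℕ) : ℝ) ^ 2)) := by
      have h3 := (summable_nat_add_iff (f := fun n : ℕ => 1 / (n : ℝ) ^ 2) 1).2
        (Real.summable_one_div_nat_pow.2 one_lt_two)
      exact h3.mul_left (5 * C)
    refine ne_top_of_le_ne_top h2.tsum_ofReal_ne_top (ENNReal.tsum_le_tsum fun n => ?_)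
    have h3 := ev_bound μ F hF K (fun x hx ω => (hL x hx ω).2) m r hr C hC0 hC (n + 1) (by omega)
    rw [← ENNReal.ofReal_toReal (measure_ne_top μ (Ev F m r (n + 1)))]
    exact ENNReal.ofReal_le_ofReal h3
  filter_upwards [ae_eventually_notMem h1] with ω hω
  obtain ⟨N, hN⟩ := Filter.eventually_atTop.1 hω
  refine ⟨N + 1, fun x hx hx1 t ht => ?_⟩
  have h2 := hN (x - 1) (by omega)
  rw [Nat.sub_add_cancel hx1] at h2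
  have hxr : (1 : ℝ) ≤ x := by exact_mod_cast hx1
  have hx0 : (0 : ℝ) < x := by linarith
  have hx5 : (0 : ℝ) < (x : ℝ) ^ 5 := by positivity
  set j : ℤ := ⌊t * (x : ℝ) ^ 5⌋ with hj
  have hj1 : (j : ℝ) ≤ t * (x : ℝ) ^ 5 := Int.floor_le _
  have hj2 : t * (x : ℝ) ^ 5 < j + 1 := Int.lt_floor_add_one _
  have ht1 : |t * (x : ℝ) ^ 5| ≤ (x : ℝ) ^ (m + 5) := by
    rw [abs_mul, abs_of_pos hx5, pow_add]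
    gcongr
  have ht2 := abs_le.1 ht1
  have hjm : j ∈ Icc (-((x : ℤ) ^ (m + 5) + 1)) ((x : ℤ) ^ (m + 5) + 1) := by
    rw [mem_Icc]
    constructor
    · have : (-((x : ℝ) ^ (m + 5) + 1)) ≤ (j : ℝ) := by linarith
      exact_mod_cast this
    · have : (j : ℝ) ≤ (x : ℝ) ^ (m + 5) + 1 := by linarith
      exact_mod_cast this
  have h3 : ‖F x ((j : ℝ) / (x : ℝ) ^ 5) ω‖ < (x : ℝ) ^ (1 / (r : ℝ)) := by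
    by_contra hcon
    push Not at hcon
    apply h2
    unfold Ev
    exact Set.mem_biUnion (mem_coe.2 hjm) hcon
  have h4 := (hL x hx1 ω).1 t ((j : ℝ) / (x : ℝ) ^ 5)
  have h5 : |t - (j : ℝ) / (x : ℝ) ^ 5| ≤ 1 / (x : ℝ) ^ 5 := by
    have h6 : t - (j : ℝ) / (x : ℝ) ^ 5 = (t * (x : ℝ) ^ 5 - j) / (x : ℝ) ^ 5 := by field_simp
    rw [h6, abs_div, abs_of_pos hx5, abs_of_nonneg (by linarith)]
    gcongr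
    linarith
  have h6 : K * (x : ℝ) ^ 5 * |t - (j : ℝ) / (x : ℝ) ^ 5| ≤ K := by
    calc K * (x : ℝ) ^ 5 * |t - (j : ℝ) / (x : ℝ) ^ 5| ≤ K * (x : ℝ) ^ 5 * (1 / (x : ℝ) ^ 5) := by gcongr
      _ = K := by field_simp
  calc ‖F x t ω‖ = ‖F x ((j : ℝ) / (x : ℝ) ^ 5) ω + (F x t ω - F x ((j : ℝ) / (x : ℝ) ^ 5) ω)‖ := by
        congr 1
        ring
    _ ≤ ‖F x ((j : ℝ) / (x : ℝ) ^ 5) ω‖ + ‖F x t ω - F x ((j : ℝ) / (x : ℝ) ^ 5) ω‖ := norm_add_le _ _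
    _ ≤ (x : ℝ) ^ (1 / (r : ℝ)) + K := by linarith

end BCA

theorem pBCA : S_BCA := by
  intro Ω _ μ _ F hF hmom hL
  obtain ⟨K, hK, hL⟩ := hL
  have h1 : ∀ᵐ ω ∂μ, ∀ m r : ℕ, 1 ≤ r → ∃ N : ℕ, ∀ x : ℕ, N ≤ x → 1 ≤ x → ∀ t : ℝ, |t| ≤ (x : ℝ) ^ m →
      ‖F x t ω‖ ≤ (x : ℝ) ^ (1 / (r : ℝ)) + K := by
    rw [ae_all_iff]
    intro m
    rw [ae_all_iff]
    intro r
    by_cases hr : 1 ≤ r
    · filter_upwards [BCA.key μ F hF K hmom hL hK m r hr] with ω hω _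
      exact hω
    · exact Filter.Eventually.of_forall fun ω h => absurd h hr
  filter_upwards [h1] with ω hω A ε hA hε
  obtain ⟨r, hr⟩ := exists_nat_one_div_lt hε
  obtain ⟨N, hN⟩ := hω ⌈A⌉₊ (r + 1) (by omega)
  refine ⟨(1 + K) + K * (N : ℝ) ^ 5, fun x hx t ht => ?_⟩
  have hxr : (1 : ℝ) ≤ x := by exact_mod_cast hx
  have hxε : 1 ≤ (x : ℝ) ^ ε := Real.one_le_rpow hxr hε.le
  by_cases hNx : N ≤ x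
  · have h2 : |t| ≤ (x : ℝ) ^ ⌈A⌉₊ := by
      refine ht.trans ?_
      rw [← Real.rpow_natCast]
      exact Real.rpow_le_rpow_of_exponent_le hxr (Nat.le_ceil A)
    have h3 := hN x hNx hx t h2
    have h4 : (x : ℝ) ^ (1 / ((r + 1 : ℕ) : ℝ)) ≤ (x : ℝ) ^ ε := by
      apply Real.rpow_le_rpow_of_exponent_le hxr
      push_cast
      exact hr.le
    have h5 : 0 ≤ K * (N : ℝ) ^ 5 := by positivity
    calc ‖F x t ω‖ ≤ (x : ℝ) ^ (1 / ((r + 1 : ℕ) : ℝ)) + K := h3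
      _ ≤ (x : ℝ) ^ ε + K * (x : ℝ) ^ ε := by nlinarith
      _ ≤ ((1 + K) + K * (N : ℝ) ^ 5) * (x : ℝ) ^ ε := by nlinarith
  · push Not at hNx
    have h2 := (hL x hx ω).2 t
    have h3 : (x : ℝ) ≤ N := by exact_mod_cast hNx.le
    have h4 : K * (x : ℝ) ^ 5 ≤ K * (N : ℝ) ^ 5 := by gcongr
    have h5 : 0 ≤ K * (N : ℝ) ^ 5 := by positivity
    nlinarith

end Pool.Agent.T2H86.RC
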