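import Pool.Agent.T2H86.RC.Stm

set_option autoImplicit false

namespace Pool.Agent.T2H86.RC

open Finset

theorem pBOX : S_BOX := by
  intro P s J b y
  classical
  rw [Finset.prod_sum, Finset.finsupp, Finset.sum_map]
  refine Finset.sum_congr rfl fun g _ => ?_
  change _ = (∏ p ∈ s, b p (Finsupp.indicator s g p)) * chi y (Finsupp.indicator s g)
  have hsub : (Finsupp.indicator s g).support ⊆ s := Finsupp.support_indicator_subset s g
  have hchi : chi y (Finsupp.indicator s g) = ∏ p ∈ s, y p ^ (Finsupp.indicator s g p) := by
    unfold chi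
    exact Finsupp.prod_of_support_subset _ hsub _ (by simp)
  rw [hchi, ← Finset.prod_mul_distrib, ← Finset.prod_attach s]
  refine Finset.prod_congr rfl fun x _ => ?_
  rw [Finsupp.indicator_of_mem x.2]

end Pool.Agent.T2H86.RC
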