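import Mathlib

/-!
Project RC (MP_21d687_nt): central sums of random quadratic twists.
-/

set_option autoImplicit false

namespace Pool.Agent.T2H86.RC

open Finset

/-- A system of primes with norms `q p`: the norms are at least two, only finitely many are below
any bound, and the sum of the reciprocals up to `x` is at most `ε log x + C` for every `ε > 0`.
Example: the nonzero prime ideals of the ring of integers of a number field. -/
structure PrimeSystem {P : Type} (q : P → ℕ) : Prop where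
  two_le : ∀ p, 2 ≤ q p
  finite : ∀ x : ℕ, {p | q p ≤ x}.Finite
  recip : ∀ ε : ℝ, 0 < ε → ∃ C : ℝ, ∀ x : ℕ, 1 ≤ x → ∀ S : Finset P, (∀ p ∈ S, q p ≤ x) →
    ∑ p ∈ S, 1 / (q p : ℝ) ≤ ε * Real.log x + C

/-- The norm of the ideal `n = ∏ p ^ (n p)`. -/
def norm {P : Type} (q : P → ℕ) (n : P →₀ ℕ) : ℕ := n.prod fun p j => q p ^ j

/-- Coefficients of an `L`-function like that of a cuspidal automorphic representation of `PGL₂`:
multiplicative, `|λ(p^j)| ≤ (j + 1) (N p)^(j θ)` with some `θ < 1/6` (`θ = 7/64` is known),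
`|λ(p^2)| ≤ |λ(p)|^2 + 1`, and the Rankin-Selberg bound
`∑_{N p ≤ x} |λ(p)|^2 / N p ≤ ε log x + C` for every `ε > 0`. -/
structure CoeffSystem {P : Type} (q : P → ℕ) (lam : (P →₀ ℕ) → ℂ) : Prop where
  one : lam 0 = 1
  mul : ∀ m n : P →₀ ℕ, Disjoint m.support n.support → lam (m + n) = lam m * lam n
  bound : ∃ θ : ℝ, 0 ≤ θ ∧ θ < 1 / 6 ∧ ∀ (p : P) (j : ℕ),
    ‖lam (Finsupp.single p j)‖ ≤ ((j : ℝ) + 1) * (q p : ℝ) ^ ((j : ℝ) * θ)
  square : ∀ p : P, ‖lam (Finsupp.single p 2)‖ ≤ ‖lam (Finsupp.single p 1)‖ ^ 2 + 1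
  rankin : ∀ ε : ℝ, 0 < ε → ∃ C : ℝ, ∀ x : ℕ, 1 ≤ x → ∀ S : Finset P, (∀ p ∈ S, q p ≤ x) →
    ∑ p ∈ S, ‖lam (Finsupp.single p 1)‖ ^ 2 / (q p : ℝ) ≤ ε * Real.log x + C

/-- The value at the ideal `n` of the completely multiplicative function with the values `χ p` at
the primes. -/
def chi {P : Type} (χ : P → ℝ) (n : P →₀ ℕ) : ℝ := n.prod fun p j => χ p ^ j

/-- The sum `∑ λ(n) χ(n) N(n)^(-1/2 - i t)` over the ideals `n` of norm at most `x`. -/
noncomputable def centralSum {P : Type} (q : P → ℕ) (lam : (P →₀ ℕ) → ℂ) (χ : P → ℝ) (x : ℕ)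
    (t : ℝ) : ℂ :=
  ∑ᶠ (n : P →₀ ℕ) (_ : norm q n ≤ x),
    lam n * (chi χ n : ℂ) * (norm q n : ℂ) ^ (-(1 / 2 : ℂ) - t * Complex.I)

end Pool.Agent.T2H86.RC
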