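import Pool.Agent.T2H86.RC.Stm

/-!
# Package EXC
-/

set_option autoImplicit false

namespace Pool.Agent.T2H86.RC

open Finset MeasureTheory ProbabilityTheory

namespace EXC

theorem odd_zero {Ω : Type} [MeasurableSpace Ω] (μ : Measure Ω) (Y : Ω → ℝ) (hY : Measurable Y)
    (hs : μ.map Y = μ.map (fun ω => -Y ω)) (j : ℕ) (hj : Odd j) : ∫ ω, Y ω ^ j ∂μ = 0 := by
  have h1 : ∫ x, x ^ j ∂(μ.map Y) = ∫ ω, Y ω ^ j ∂μ :=
    integral_map hY.aemeasurable (by fun_prop)
  have h2 : ∫ x, x ^ j ∂(μ.map (fun ω => -Y ω)) = ∫ ω, (-Y ω) ^ j ∂μ :=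
    integral_map hY.neg.aemeasurable (by fun_prop)
  rw [← hs, h1] at h2
  have h3 : ∀ ω, (-Y ω) ^ j = -(Y ω ^ j) := fun ω => hj.neg_pow _
  simp only [h3] at h2
  rw [integral_neg] at h2
  linarith

end EXC

open EXC in
theorem pEXC (hPRD : S_PRD) : S_EXC := by
  intro P Ω _ μ _ X hX m
  refine ⟨?_, ?_, ?_⟩
  · unfold chi Finsupp.prod
    apply Finset.measurable_fun_prod
    intro p _
    exact (hX.meas p).pow_const _
  · intro ω
    unfold chi Finsupp.prod
    rw [Finset.abs_prod]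
    apply Finset.prod_le_one
    · intro p _
      exact abs_nonneg _
    · intro p _
      rw [abs_pow]
      exact pow_le_one₀ (abs_nonneg _) (hX.bdd p ω)
  · have h := hPRD μ X hX m.support (fun p x => x ^ (m p)) (fun p => by fun_prop)
    have e : (fun ω => chi (fun p => X p ω) m) = fun ω => ∏ p ∈ m.support, X p ω ^ m p := rfl
    rw [e, h]
    apply Finset.prod_nonneg
    intro p _
    rcases Nat.even_or_odd (m p) with he | ho
    · exact integral_nonneg fun ω => he.pow_nonneg _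
    · rw [odd_zero μ (X p) (hX.meas p) (hX.symm p) (m p) ho]

end Pool.Agent.T2H86.RC
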