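import Pool.Agent.T2H86.RC.Stm

/-!
# Package FIN of project RC
-/

set_option autoImplicit false

namespace Pool.Agent.T2H86.RC

open Finset MeasureTheory ProbabilityTheory

theorem pFIN : S_FIN := by
  classical
  intro P q hq
  have hq1 : ∀ p, 1 ≤ q p := fun p => le_trans (by norm_num) (hq.two_le p)
  have hpos : ∀ n : P →₀ ℕ, 1 ≤ norm q n := by
    intro n
    unfold norm Finsupp.prod
    exact Nat.succ_le_of_lt (Finset.prod_pos fun p _ => pow_pos (hq1 p) _)
  have hfac : ∀ (n : P →₀ ℕ) (p : P), q p ^ (n p) ≤ norm q n := by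
    intro n p
    by_cases hp : p ∈ n.support
    · apply Nat.le_of_dvd (hpos n)
      unfold norm Finsupp.prod
      exact Finset.dvd_prod_of_mem (fun p => q p ^ n p) hp
    · rw [Finsupp.notMem_support_iff.1 hp, pow_zero]
      exact hpos n
  have hbd : ∀ (x : ℕ) (n : P →₀ ℕ), norm q n ≤ x →
      (∀ p ∈ n.support, q p ≤ x) ∧ ∀ p, n p ≤ x := by
    intro x n hn
    constructor
    · intro p hp
      have h1 : n p ≠ 0 := Finsupp.mem_support_iff.1 hp
      exact (Nat.le_self_pow h1 (q p)).trans ((hfac n p).trans hn)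
    · intro p
      have h1 : n p < 2 ^ (n p) := Nat.lt_two_pow_self
      have h2 : 2 ^ (n p) ≤ q p ^ (n p) := Nat.pow_le_pow_left (hq.two_le p) _
      exact (h1.le.trans h2).trans ((hfac n p).trans hn)
  refine ⟨?_, hbd, hpos, ?_⟩
  · intro x
    refine Set.Finite.subset
      (((hq.finite x).toFinset.finsupp (fun _ => range (x + 1))).finite_toSet) ?_
    intro n hn
    have hn' : norm q n ≤ x := hn
    obtain ⟨h1, h2⟩ := hbd x n hn'
    rw [Finset.mem_coe, Finset.mem_finsupp_iff]
    refine ⟨?_, ?_⟩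
    · intro p hp
      rw [Set.Finite.mem_toFinset]
      exact h1 p hp
    · intro p _
      rw [Finset.mem_range]
      exact Nat.lt_succ_of_le (h2 p)
  · intro m n
    unfold norm
    exact Finsupp.prod_add_index' (fun p => pow_zero _) (fun p a b => pow_add _ _ _)

end Pool.Agent.T2H86.RC
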