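import Pool.Agent.T2H86.RC.Stm

set_option autoImplicit false

namespace Pool.Agent.T2H86.RC

open Finset MeasureTheory ProbabilityTheory

namespace LIP

/-- The completely multiplicative function is bounded by one. -/
theorem chi_le {P : Type} (χ : P → ℝ) (h : ∀ p, |χ p| ≤ 1) (n : P →₀ ℕ) : |chi χ n| ≤ 1 := by
  unfold chi Finsupp.prod
  rw [Finset.abs_prod]
  refine Finset.prod_le_one (fun i _ => abs_nonneg _) (fun i _ => ?_)
  rw [abs_pow]
  exact pow_le_one₀ (abs_nonneg _) (h i)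

/-- The sum is a finite sum. -/
theorem centralSum_eq {P : Type} (q : P → ℕ) (lam : (P →₀ ℕ) → ℂ) (χ : P → ℝ) (x : ℕ) (t : ℝ)
    (hf : {n : P →₀ ℕ | norm q n ≤ x}.Finite) :
    centralSum q lam χ x t = ∑ n ∈ hf.toFinset,
      lam n * (chi χ n : ℂ) * (norm q n : ℂ) ^ (-(1 / 2 : ℂ) - t * Complex.I) := by
  unfold centralSum
  rw [← finsum_mem_coe_finset]
  simp only [Set.Finite.coe_toFinset, Set.mem_ofPred_eq]

/-- The power as an exponential. -/
theorem cpow_eq (N : ℕ) (hN : 1 ≤ N) (t : ℝ) :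
    (N : ℂ) ^ (-(1 / 2 : ℂ) - t * Complex.I) =
      ((((N : ℝ) ^ (-(1 / 2) : ℝ) : ℝ)) : ℂ) * Complex.exp (((-(t * Real.log N) : ℝ) : ℂ) * Complex.I) := by
  have h0 : (N : ℂ) ≠ 0 := by exact_mod_cast (by omega : N ≠ 0)
  have hNp : (0 : ℝ) < N := by exact_mod_cast (by omega : 0 < N)
  rw [Complex.cpow_def_of_ne_zero h0, Real.rpow_def_of_pos hNp, Complex.ofReal_exp, ← Complex.exp_add]
  congr 1
  rw [← Complex.natCast_log]
  push_cast
  ring

theorem norm_cpow_le (N : ℕ) (hN : 1 ≤ N) (t : ℝ) :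
    ‖(N : ℂ) ^ (-(1 / 2 : ℂ) - t * Complex.I)‖ ≤ 1 := by
  rw [cpow_eq N hN, norm_mul, Complex.norm_exp_ofReal_mul_I, mul_one, Complex.norm_real,
    Real.norm_of_nonneg (Real.rpow_nonneg (Nat.cast_nonneg _) _)]
  exact Real.rpow_le_one_of_one_le_of_nonpos (by exact_mod_cast hN) (by norm_num)

theorem norm_cpow_sub_le (N : ℕ) (hN : 1 ≤ N) (t t' : ℝ) :
    ‖(N : ℂ) ^ (-(1 / 2 : ℂ) - t * Complex.I) - (N : ℂ) ^ (-(1 / 2 : ℂ) - t' * Complex.I)‖
      ≤ N * |t - t'| := by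
  rw [cpow_eq N hN, cpow_eq N hN, ← mul_sub, norm_mul, Complex.norm_real,
    Real.norm_of_nonneg (Real.rpow_nonneg (Nat.cast_nonneg _) _)]
  have hN1 : (1 : ℝ) ≤ N := by exact_mod_cast hN
  have h1 : (N : ℝ) ^ (-(1 / 2) : ℝ) ≤ 1 :=
    Real.rpow_le_one_of_one_le_of_nonpos hN1 (by norm_num)
  have h2 : ‖Complex.exp (((-(t * Real.log N) : ℝ) : ℂ) * Complex.I) -
      Complex.exp (((-(t' * Real.log N) : ℝ) : ℂ) * Complex.I)‖ ≤ |t - t'| * N := by
    have e : Complex.exp (((-(t * Real.log N) : ℝ) : ℂ) * Complex.I) -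
      Complex.exp (((-(t' * Real.log N) : ℝ) : ℂ) * Complex.I) =
      Complex.exp (((-(t' * Real.log N) : ℝ) : ℂ) * Complex.I) *
        (Complex.exp (Complex.I * (((-(t * Real.log N) + t' * Real.log N : ℝ)) : ℂ)) - 1) := by
      rw [mul_sub, ← Complex.exp_add, mul_one]
      congr 2
      push_cast
      ring
    rw [e, norm_mul, Complex.norm_exp_ofReal_mul_I, one_mul]
    refine (Real.norm_exp_I_mul_ofReal_sub_one_le).trans ?_
    rw [Real.norm_eq_abs]
    have e2 : -(t * Real.log N) + t' * Real.log N = -((t - t') * Real.log N) := by ring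
    rw [e2, abs_neg, abs_mul]
    refine mul_le_mul_of_nonneg_left ?_ (abs_nonneg _)
    rw [abs_of_nonneg (Real.log_nonneg hN1)]
    exact (Real.log_le_sub_one_of_pos (by linarith)).trans (by linarith)
  calc (N : ℝ) ^ (-(1 / 2) : ℝ) * _ ≤ 1 * (|t - t'| * N) := by
        refine mul_le_mul h1 h2 (norm_nonneg _) (by norm_num)
    _ = N * |t - t'| := by ring

end LIP

/-- The central sums are Lipschitz in `t`, with a polynomial bound. -/
theorem pLIP (hFIN : S_FIN) (hPOL : S_POL) : S_LIP := by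
  intro P q hq lam hlam
  obtain ⟨K, hK0, hK⟩ := hPOL q hq lam hlam
  obtain ⟨hfin, -, hpos, -⟩ := hFIN q hq
  refine ⟨K, hK0, ?_⟩
  intro χ hχ x hx
  have hx1 : (1 : ℝ) ≤ x := by exact_mod_cast hx
  have hsum := hK x hx (hfin x).toFinset (fun n hn => by simpa using hn)
  constructor
  · intro t t'
    rw [LIP.centralSum_eq q lam χ x t (hfin x), LIP.centralSum_eq q lam χ x t' (hfin x),
      ← Finset.sum_sub_distrib]
    have hterm : ∀ n ∈ (hfin x).toFinset,
        ‖lam n * (chi χ n : ℂ) * (norm q n : ℂ) ^ (-(1 / 2 : ℂ) - t * Complex.I) -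
          lam n * (chi χ n : ℂ) * (norm q n : ℂ) ^ (-(1 / 2 : ℂ) - t' * Complex.I)‖ ≤
          ‖lam n‖ * ((x : ℝ) * |t - t'|) := by
      intro n hn
      have hn' : norm q n ≤ x := by simpa using hn
      rw [← mul_sub, norm_mul, norm_mul, Complex.norm_real, Real.norm_eq_abs]
      have a1 : ‖lam n‖ * |chi χ n| ≤ ‖lam n‖ :=
        mul_le_of_le_one_right (norm_nonneg _) (LIP.chi_le χ hχ n)
      have a2 := LIP.norm_cpow_sub_le (norm q n) (hpos n) t t'
      have a3 : ((norm q n : ℕ) : ℝ) * |t - t'| ≤ x * |t - t'| :=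
        mul_le_mul_of_nonneg_right (by exact_mod_cast hn') (abs_nonneg _)
      exact mul_le_mul a1 (a2.trans a3) (norm_nonneg _) (norm_nonneg _)
    calc _ ≤ ∑ n ∈ (hfin x).toFinset, ‖lam n‖ * ((x : ℝ) * |t - t'|) :=
          (norm_sum_le _ _).trans (Finset.sum_le_sum hterm)
      _ = (∑ n ∈ (hfin x).toFinset, ‖lam n‖) * ((x : ℝ) * |t - t'|) := by rw [Finset.sum_mul]
      _ ≤ (K * (x : ℝ) ^ 4) * ((x : ℝ) * |t - t'|) :=
          mul_le_mul_of_nonneg_right hsum (by positivity)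
      _ = K * (x : ℝ) ^ 5 * |t - t'| := by ring
  · intro t
    rw [LIP.centralSum_eq q lam χ x t (hfin x)]
    have hterm : ∀ n ∈ (hfin x).toFinset,
        ‖lam n * (chi χ n : ℂ) * (norm q n : ℂ) ^ (-(1 / 2 : ℂ) - t * Complex.I)‖ ≤ ‖lam n‖ := by
      intro n hn
      rw [norm_mul, norm_mul, Complex.norm_real, Real.norm_eq_abs]
      have a1 : ‖lam n‖ * |chi χ n| ≤ ‖lam n‖ :=
        mul_le_of_le_one_right (norm_nonneg _) (LIP.chi_le χ hχ n)
      have a2 := LIP.norm_cpow_le (norm q n) (hpos n) t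
      calc _ ≤ ‖lam n‖ * 1 := mul_le_mul a1 a2 (norm_nonneg _) (norm_nonneg _)
        _ = ‖lam n‖ := mul_one _
    calc _ ≤ ∑ n ∈ (hfin x).toFinset, ‖lam n‖ :=
          (norm_sum_le _ _).trans (Finset.sum_le_sum hterm)
      _ ≤ K * (x : ℝ) ^ 4 := hsum
      _ ≤ K * (x : ℝ) ^ 5 := by
          refine mul_le_mul_of_nonneg_left ?_ hK0
          exact pow_le_pow_right₀ hx1 (by norm_num)

end Pool.Agent.T2H86.RC
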