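import Pool.Agent.T2H86.RC.Stm

/-!
# Package LOC
-/

set_option autoImplicit false

namespace Pool.Agent.T2H86.RC

open Finset MeasureTheory ProbabilityTheory

namespace LOC

theorem poly (V : ℝ) (hV : 0 ≤ V) (m : ℕ) : ∃ C : ℝ, 0 ≤ C ∧ ∀ y : ℝ, |y| ≤ V →
    |(1 + y) ^ m - 1 - m * y| ≤ C * y ^ 2 := by
  induction m with
  | zero =>
    refine ⟨0, le_refl _, fun y _ => ?_⟩
    simp
  | succ m ih =>
    obtain ⟨C, hC, h⟩ := ih
    refine ⟨(1 + V) * C + m, by positivity, fun y hy => ?_⟩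
    have e : (1 + y) ^ (m + 1) - 1 - ((m + 1 : ℕ) : ℝ) * y =
        (1 + y) * ((1 + y) ^ m - 1 - m * y) + m * y ^ 2 := by
      push_cast
      ring
    rw [e]
    have h1 : |1 + y| ≤ 1 + V := by
      calc |1 + y| ≤ |1| + |y| := abs_add_le _ _
        _ ≤ 1 + V := by rw [abs_one]; linarith
    calc |(1 + y) * ((1 + y) ^ m - 1 - m * y) + m * y ^ 2|
        ≤ |(1 + y) * ((1 + y) ^ m - 1 - m * y)| + |m * y ^ 2| := abs_add_le _ _
      _ ≤ (1 + V) * (C * y ^ 2) + m * y ^ 2 := by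
          rw [abs_mul]
          have h2 : |(m : ℝ) * y ^ 2| = m * y ^ 2 := abs_of_nonneg (by positivity)
          rw [h2]
          have h3 := mul_le_mul h1 (h y hy) (abs_nonneg _) (by linarith)
          linarith
      _ = ((1 + V) * C + m) * y ^ 2 := by ring

theorem int_zero {Ω : Type} [MeasurableSpace Ω] (μ : Measure Ω) (Y : Ω → ℝ) (hY : Measurable Y)
    (hs : μ.map Y = μ.map (fun ω => -Y ω)) : ∫ ω, Y ω ∂μ = 0 := by
  have h1 : ∫ x, x ∂(μ.map Y) = ∫ ω, Y ω ∂μ :=
    integral_map hY.aemeasurable (by fun_prop)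
  have h2 : ∫ x, x ∂(μ.map (fun ω => -Y ω)) = ∫ ω, -Y ω ∂μ :=
    integral_map hY.neg.aemeasurable (by fun_prop)
  rw [← hs, h1, integral_neg] at h2
  linarith

theorem split (J : ℕ) (hJ : 1 ≤ J) (f : ℕ → ℝ) :
    ∑ j ∈ range (J + 1), f j = f 0 + (f 1 + ∑ j ∈ Icc 2 J, f j) := by
  rw [Finset.range_eq_Ico, Finset.sum_eq_sum_Ico_succ_bot (by omega),
    Finset.sum_eq_sum_Ico_succ_bot (by omega)]
  congr 2

end LOC

open LOC in
theorem pLOC : S_LOC := by
  intro V k hV
  obtain ⟨C, hC, hpoly⟩ := poly V hV (2 * k)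
  refine ⟨2 * k + 2 * C + 2 * C * V, by positivity, ?_⟩
  intro Ω _ μ _ Y hY hs hb J b hJ hb0 hb1 hbV
  set s : ℝ := ∑ j ∈ Icc 2 J, b j with hsdef
  have hs0 : 0 ≤ s := Finset.sum_nonneg fun j _ => hb0 j
  have hb' : 1 + (b 1 + s) ≤ V := by
    rw [split J hJ b, hb1] at hbV
    exact hbV
  have hb10 := hb0 1
  have hpt : ∀ ω, (∑ j ∈ range (J + 1), b j * Y ω ^ j) ^ (2 * k) ≤
      1 + 2 * k * (b 1 * Y ω + s) + C * (2 * b 1 ^ 2 + 2 * V * s) := by
    intro ω
    rw [split J hJ (fun j => b j * Y ω ^ j)]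
    simp only [pow_zero, mul_one, pow_one, hb1]
    set r : ℝ := ∑ j ∈ Icc 2 J, b j * Y ω ^ j with hr
    have hYω := hb ω
    have hrabs : |r| ≤ s := by
      calc |r| ≤ ∑ j ∈ Icc 2 J, |b j * Y ω ^ j| := Finset.abs_sum_le_sum_abs _ _
        _ ≤ ∑ j ∈ Icc 2 J, b j := by
            apply Finset.sum_le_sum
            intro j _
            rw [abs_mul, abs_of_nonneg (hb0 j), abs_pow]
            exact mul_le_of_le_one_right (hb0 j) (pow_le_one₀ (abs_nonneg _) hYω)
    have hbY : |b 1 * Y ω| ≤ b 1 := by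
      rw [abs_mul, abs_of_nonneg hb10]
      exact mul_le_of_le_one_right hb10 hYω
    have hyabs : |b 1 * Y ω + r| ≤ V := by
      calc |b 1 * Y ω + r| ≤ |b 1 * Y ω| + |r| := abs_add_le _ _
        _ ≤ V := by linarith
    have h1 := hpoly _ hyabs
    have h2 := (abs_le.1 h1).2
    push_cast at h2
    have h3 : b 1 * Y ω + r ≤ b 1 * Y ω + s := by linarith [(abs_le.1 hrabs).2]
    have h4 : (b 1 * Y ω + r) ^ 2 ≤ 2 * b 1 ^ 2 + 2 * V * s := by
      have h5 : (b 1 * Y ω) ^ 2 ≤ b 1 ^ 2 := by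
        rw [← sq_abs (b 1 * Y ω)]
        exact pow_le_pow_left₀ (abs_nonneg _) hbY 2
      have h6 : r ^ 2 ≤ V * s := by
        rw [← sq_abs r, pow_two]
        exact mul_le_mul (hrabs.trans (by linarith)) hrabs (abs_nonneg _) hV
      nlinarith [sq_nonneg (b 1 * Y ω - r)]
    have h7 : (2 * (k : ℝ)) * (b 1 * Y ω + r) ≤ 2 * k * (b 1 * Y ω + s) :=
      mul_le_mul_of_nonneg_left h3 (by positivity)
    have h8 := mul_le_mul_of_nonneg_left h4 hC
    linarith
  have hYint : Integrable Y μ := by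
    refine Integrable.of_bound hY.aestronglyMeasurable 1 (Filter.Eventually.of_forall fun ω => ?_)
    rw [Real.norm_eq_abs]
    exact hb ω
  have hfint : Integrable (fun ω => 1 + 2 * k * (b 1 * Y ω + s) + C * (2 * b 1 ^ 2 + 2 * V * s)) μ := by
    have h1 : Integrable (fun ω => b 1 * Y ω + s) μ := (hYint.const_mul _).add (integrable_const _)
    exact ((integrable_const _).add (h1.const_mul (2 * (k : ℝ)))).add (integrable_const _)
  have hgint : Integrable (fun ω => (∑ j ∈ range (J + 1), b j * Y ω ^ j) ^ (2 * k)) μ := by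
    refine Integrable.of_bound (C := (∑ j ∈ range (J + 1), b j) ^ (2 * k)) ?_
      (Filter.Eventually.of_forall fun ω => ?_)
    · apply Measurable.aestronglyMeasurable
      apply Measurable.pow_const
      apply Finset.measurable_fun_sum
      intro j _
      exact (hY.pow_const j).const_mul (b j)
    · rw [norm_pow, Real.norm_eq_abs]
      apply pow_le_pow_left₀ (abs_nonneg _)
      calc |∑ j ∈ range (J + 1), b j * Y ω ^ j| ≤ ∑ j ∈ range (J + 1), |b j * Y ω ^ j| :=
            Finset.abs_sum_le_sum_abs _ _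
        _ ≤ ∑ j ∈ range (J + 1), b j := by
            apply Finset.sum_le_sum
            intro j _
            rw [abs_mul, abs_of_nonneg (hb0 j), abs_pow]
            exact mul_le_of_le_one_right (hb0 j) (pow_le_one₀ (abs_nonneg _) (hb ω))
  have hmono := integral_mono hgint hfint hpt
  have hval : ∫ ω, (1 + 2 * k * (b 1 * Y ω + s) + C * (2 * b 1 ^ 2 + 2 * V * s)) ∂μ =
      1 + 2 * k * s + C * (2 * b 1 ^ 2 + 2 * V * s) := by
    have e1 : (fun ω => 1 + 2 * k * (b 1 * Y ω + s) + C * (2 * b 1 ^ 2 + 2 * V * s)) =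
        fun ω => (2 * k * b 1) * Y ω + (1 + 2 * k * s + C * (2 * b 1 ^ 2 + 2 * V * s)) := by
      funext ω
      ring
    rw [e1, integral_add (hYint.const_mul _) (integrable_const _), integral_const_mul,
      int_zero μ Y hY hs, mul_zero, zero_add, integral_const]
    simp
  rw [hval] at hmono
  refine hmono.trans ?_
  have hk0 : (0 : ℝ) ≤ k := Nat.cast_nonneg k
  have t1 : 0 ≤ b 1 ^ 2 := by positivity
  have t2 : 0 ≤ 2 * (k : ℝ) * b 1 ^ 2 := by positivity
  have t3 : 0 ≤ 2 * C * V * b 1 ^ 2 := by positivity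
  have t4 : 0 ≤ 2 * C * s := by positivity
  nlinarith

end Pool.Agent.T2H86.RC
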