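import Pool.Agent.T2H86.RC.Stm

/-!
# Package MEA of project RC
-/

set_option autoImplicit false

namespace Pool.Agent.T2H86.RC

open Finset MeasureTheory ProbabilityTheory

namespace MEA

theorem centralSum_eq {P : Type} (q : P → ℕ) (lam : (P →₀ ℕ) → ℂ) (χ : P → ℝ) (x : ℕ) (t : ℝ)
    (h : {n : P →₀ ℕ | norm q n ≤ x}.Finite) :
    centralSum q lam χ x t = ∑ n ∈ h.toFinset,
      lam n * (chi χ n : ℂ) * (norm q n : ℂ) ^ (-(1 / 2 : ℂ) - t * Complex.I) :=
  finsum_mem_eq_finite_toFinset_sum _ h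

end MEA

theorem pMEA (hFIN : S_FIN) : S_MEA := by
  intro P Ω _ μ X hX q hq lam x t
  obtain ⟨hfin, -⟩ := hFIN q hq
  simp_rw [MEA.centralSum_eq q lam _ x t (hfin x)]
  refine Finset.measurable_sum _ fun n _ => ?_
  refine Measurable.mul_const (Measurable.const_mul ?_ _) _
  apply Complex.measurable_ofReal.comp
  unfold chi Finsupp.prod
  exact Finset.measurable_prod _ fun p _ => (hX.meas p).pow_const _

end Pool.Agent.T2H86.RC
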