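import Pool.Agent.T2H86.RC.Stm

set_option autoImplicit false

namespace Pool.Agent.T2H86.RC

open Finset MeasureTheory ProbabilityTheory

theorem pMOM (hFIN : S_FIN) (hMUL : S_MUL) (hBOX : S_BOX) (hPRD : S_PRD) (hMON : S_MON)
    (hLOC : S_LOC) (hSUM : S_SUM) : S_MOM := by
  intro P Ω _ μ _ X hX q hq lam hl k ε hε
  obtain ⟨⟨V, hV0, hV⟩, hS⟩ := hSUM q hq lam hl
  obtain ⟨C, hC0, hC⟩ := hLOC V k hV0
  obtain ⟨C', hC'⟩ := hS (ε / (C + 1)) (by positivity)
  obtain ⟨hfin, hsup, hpos, _⟩ := hFIN q hq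
  refine ⟨Real.exp (C * |C'|), fun x hx t => ?_⟩
  classical
  set I : Finset (P →₀ ℕ) := (hfin x).toFinset with hI
  set s : Finset P := (hq.finite x).toFinset with hs
  set J : Finset (P →₀ ℕ) := s.finsupp (fun _ => range (x + 1)) with hJ
  have hIJ : I ⊆ J := by
    intro n hn
    have hn' : norm q n ≤ x := by simpa [hI] using hn
    rw [hJ, Finset.mem_finsupp_iff]
    refine ⟨fun p hp => ?_, fun p _ => ?_⟩
    · rw [hs, Set.Finite.mem_toFinset]
      exact (hsup x n hn').1 p hp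
    · rw [Finset.mem_range]
      have := (hsup x n hn').2 p
      omega
  have hcs : ∀ χ : P → ℝ, centralSum q lam χ x t =
      ∑ n ∈ I, (lam n * (norm q n : ℂ) ^ (-(1 / 2 : ℂ) - t * Complex.I)) * (chi χ n : ℂ) := by
    intro χ
    have h1 := finsum_mem_eq_finite_toFinset_sum
      (fun n : P →₀ ℕ => lam n * (chi χ n : ℂ) * (norm q n : ℂ) ^ (-(1 / 2 : ℂ) - t * Complex.I))
      (hfin x)
    unfold centralSum
    rw [hI]
    refine Eq.trans h1 (Finset.sum_congr rfl fun n _ => ?_)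
    ring
  have hnorm : ∀ n : P →₀ ℕ, ‖lam n * (norm q n : ℂ) ^ (-(1 / 2 : ℂ) - t * Complex.I)‖ =
      cc q lam n := by
    intro n
    rw [norm_mul, Complex.norm_natCast_cpow_of_pos (hpos n), cc]
    congr 2
    simp
  have hb0 : ∀ (p : P) (j : ℕ), 0 ≤ bb q lam p j := fun p j => by
    unfold bb; positivity
  have hc0 : ∀ n : P →₀ ℕ, 0 ≤ cc q lam n := fun n => by
    unfold cc; positivity
  have h1 : ∫ ω, ‖centralSum q lam (fun p => X p ω) x t‖ ^ (2 * k) ∂μ ≤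
      ∫ ω, (∑ n ∈ J, cc q lam n * chi (fun p => X p ω) n) ^ (2 * k) ∂μ := by
    have h2 := hMON μ X hX k I J hIJ
      (fun n => lam n * (norm q n : ℂ) ^ (-(1 / 2 : ℂ) - t * Complex.I)) (cc q lam)
      (fun n _ => (hnorm n).le) (fun n _ => hc0 n)
    simpa only [hcs] using h2
  have h3 : ∀ y : P → ℝ, ∑ n ∈ J, cc q lam n * chi y n =
      ∏ p ∈ s, (∑ j ∈ range (x + 1), bb q lam p j * y p ^ j) := by
    intro y
    rw [hBOX s x (bb q lam) y]
    refine Finset.sum_congr rfl fun n hn => ?_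
    rw [Finset.mem_finsupp_iff] at hn
    rw [(hMUL q hq lam hl n s hn.1).2]
  have h4 : ∫ ω, (∑ n ∈ J, cc q lam n * chi (fun p => X p ω) n) ^ (2 * k) ∂μ =
      ∏ p ∈ s, ∫ ω, (∑ j ∈ range (x + 1), bb q lam p j * X p ω ^ j) ^ (2 * k) ∂μ := by
    rw [← hPRD μ X hX s (fun p y => (∑ j ∈ range (x + 1), bb q lam p j * y ^ j) ^ (2 * k))
      (fun p => by fun_prop)]
    congr 1
    funext ω
    rw [h3, ← Finset.prod_pow]
  have h5 : ∀ p ∈ s, ∫ ω, (∑ j ∈ range (x + 1), bb q lam p j * X p ω ^ j) ^ (2 * k) ∂μ ≤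
      Real.exp (C * (bb q lam p 1 ^ 2 + ∑ j ∈ Icc 2 x, bb q lam p j)) := by
    intro p _
    have hb00 : bb q lam p 0 = 1 := by
      unfold bb
      rw [Finsupp.single_zero, hl.one]
      simp
    have h6 := hC μ (X p) (hX.meas p) (hX.symm p) (hX.bdd p) x (bb q lam p) hx (hb0 p) hb00 (hV p x)
    refine h6.trans ?_
    have := Real.add_one_le_exp (C * (bb q lam p 1 ^ 2 + ∑ j ∈ Icc 2 x, bb q lam p j))
    linarith
  have h7 : ∏ p ∈ s, ∫ ω, (∑ j ∈ range (x + 1), bb q lam p j * X p ω ^ j) ^ (2 * k) ∂μ ≤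
      ∏ p ∈ s, Real.exp (C * (bb q lam p 1 ^ 2 + ∑ j ∈ Icc 2 x, bb q lam p j)) := by
    refine Finset.prod_le_prod (fun p _ => ?_) h5
    refine integral_nonneg fun ω => ?_
    exact (even_two_mul k).pow_nonneg _
  rw [← Real.exp_sum, ← Finset.mul_sum] at h7
  have h8 := hC' x hx x s (fun p hp => by
    rw [hs, Set.Finite.mem_toFinset] at hp
    exact hp)
  have hx1 : (1 : ℝ) ≤ x := by exact_mod_cast hx
  have hlog : 0 ≤ Real.log x := Real.log_nonneg hx1
  have h9 : C * ∑ p ∈ s, (bb q lam p 1 ^ 2 + ∑ j ∈ Icc 2 x, bb q lam p j) ≤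
      C * |C'| + Real.log x * ε := by
    have h10 : C * (ε / (C + 1) * Real.log x + C') ≤ C * |C'| + Real.log x * ε := by
      have h11 : C * (ε / (C + 1)) ≤ ε := by
        rw [mul_div_assoc', div_le_iff₀ (by positivity)]
        nlinarith
      have h12 : C * C' ≤ C * |C'| := mul_le_mul_of_nonneg_left (le_abs_self _) hC0
      nlinarith
    exact (mul_le_mul_of_nonneg_left h8 hC0).trans h10
  calc ∫ ω, ‖centralSum q lam (fun p => X p ω) x t‖ ^ (2 * k) ∂μ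
      ≤ _ := h1
    _ = _ := h4
    _ ≤ _ := h7
    _ ≤ Real.exp (C * |C'| + Real.log x * ε) := Real.exp_le_exp.mpr h9
    _ = Real.exp (C * |C'|) * (x : ℝ) ^ ε := by
      rw [Real.exp_add, Real.rpow_def_of_pos (by linarith)]

end Pool.Agent.T2H86.RC
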