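import Pool.Agent.T2H86.RC.Stm

set_option autoImplicit false

namespace Pool.Agent.T2H86.RC

open Finset MeasureTheory ProbabilityTheory

namespace MON

variable {P : Type}

lemma chi_zero (y : P → ℝ) : chi y 0 = 1 := by
  unfold chi
  exact Finsupp.prod_zero_index

lemma chi_add (y : P → ℝ) (m n : P →₀ ℕ) : chi y (m + n) = chi y m * chi y n := by
  classical
  unfold chi
  exact Finsupp.prod_add_index' (fun _ => pow_zero _) (fun _ _ _ => pow_add _ _ _)

lemma chi_sum (y : P → ℝ) {k : ℕ} (g : Fin k → (P →₀ ℕ)) (s : Finset (Fin k)) :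
    chi y (∑ i ∈ s, g i) = ∏ i ∈ s, chi y (g i) := by
  induction s using Finset.induction_on with
  | empty => rw [sum_empty, prod_empty, chi_zero]
  | insert a s ha ih => rw [sum_insert ha, prod_insert ha, chi_add, ih]

lemma pow_expand (y : P → ℝ) (k : ℕ) (I : Finset (P →₀ ℕ)) (a : (P →₀ ℕ) → ℂ) :
    (∑ n ∈ I, a n * (chi y n : ℂ)) ^ k =
      ∑ g ∈ Fintype.piFinset (fun _ : Fin k => I), (∏ i, a (g i)) * (chi y (∑ i, g i) : ℂ) := by
  have h1 : (∑ n ∈ I, a n * (chi y n : ℂ)) ^ k = ∏ _i : Fin k, ∑ n ∈ I, a n * (chi y n : ℂ) := by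
    rw [prod_const, card_univ, Fintype.card_fin]
  rw [h1, prod_univ_sum]
  refine sum_congr rfl fun g _ => ?_
  rw [prod_mul_distrib, chi_sum]
  push_cast
  rfl

lemma pow_expand_real (y : P → ℝ) (k : ℕ) (I : Finset (P →₀ ℕ)) (c : (P →₀ ℕ) → ℝ) :
    (∑ n ∈ I, c n * chi y n) ^ k =
      ∑ g ∈ Fintype.piFinset (fun _ : Fin k => I), (∏ i, c (g i)) * chi y (∑ i, g i) := by
  have h1 : (∑ n ∈ I, c n * chi y n) ^ k = ∏ _i : Fin k, ∑ n ∈ I, c n * chi y n := by
    rw [prod_const, card_univ, Fintype.card_fin]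
  rw [h1, prod_univ_sum]
  refine sum_congr rfl fun g _ => ?_
  rw [prod_mul_distrib, chi_sum]

lemma norm_expand (y : P → ℝ) (k : ℕ) (I : Finset (P →₀ ℕ)) (a : (P →₀ ℕ) → ℂ) :
    ‖∑ n ∈ I, a n * (chi y n : ℂ)‖ ^ (2 * k) =
      ∑ g ∈ Fintype.piFinset (fun _ : Fin k => I), ∑ h ∈ Fintype.piFinset (fun _ : Fin k => I),
        ((∏ i, a (g i)) * (starRingEnd ℂ) (∏ i, a (h i))).re * chi y (∑ i, g i + ∑ i, h i) := by
  set z := ∑ n ∈ I, a n * (chi y n : ℂ) with hz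
  have h1 : ((‖z‖ ^ (2 * k) : ℝ) : ℂ) = z ^ k * (starRingEnd ℂ) (z ^ k) := by
    rw [map_pow, ← mul_pow, Complex.mul_conj, Complex.normSq_eq_norm_sq, pow_mul]
    push_cast
    rfl
  have h2 : ‖z‖ ^ (2 * k) = (z ^ k * (starRingEnd ℂ) (z ^ k)).re := by
    rw [← h1, Complex.ofReal_re]
  rw [h2, hz, pow_expand, map_sum, sum_mul_sum, Complex.re_sum]
  refine sum_congr rfl fun g _ => ?_
  rw [Complex.re_sum]
  refine sum_congr rfl fun h _ => ?_
  rw [map_mul, Complex.conj_ofReal, chi_add]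
  have h3 : (∏ i, a (g i)) * (chi y (∑ i, g i) : ℂ) * ((starRingEnd ℂ) (∏ i, a (h i)) * (chi y (∑ i, h i) : ℂ)) =
      ((∏ i, a (g i)) * (starRingEnd ℂ) (∏ i, a (h i))) * ((chi y (∑ i, g i) * chi y (∑ i, h i) : ℝ) : ℂ) := by
    push_cast
    ring
  rw [h3, Complex.re_mul_ofReal]

lemma real_expand (y : P → ℝ) (k : ℕ) (I : Finset (P →₀ ℕ)) (c : (P →₀ ℕ) → ℝ) :
    (∑ n ∈ I, c n * chi y n) ^ (2 * k) =
      ∑ g ∈ Fintype.piFinset (fun _ : Fin k => I), ∑ h ∈ Fintype.piFinset (fun _ : Fin k => I),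
        ((∏ i, c (g i)) * ∏ i, c (h i)) * chi y (∑ i, g i + ∑ i, h i) := by
  rw [two_mul, pow_add, pow_expand_real, sum_mul_sum]
  refine sum_congr rfl fun g _ => sum_congr rfl fun h _ => ?_
  rw [chi_add]
  ring

end MON

theorem pMON (hEXC : S_EXC) : S_MON := by
  intro P Ω _ μ _ X hX k I J hIJ a c hac hc
  have hE := hEXC μ X hX
  have hint : ∀ (C : ℝ) (m : P →₀ ℕ), Integrable (fun ω => C * chi (fun p => X p ω) m) μ := by
    intro C m
    refine Integrable.const_mul ?_ C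
    refine Integrable.of_bound (hE m).1.aestronglyMeasurable 1 (Filter.Eventually.of_forall fun ω => ?_)
    rw [Real.norm_eq_abs]
    exact (hE m).2.1 ω
  have h1 : ∫ ω, ‖∑ n ∈ I, a n * (chi (fun p => X p ω) n : ℂ)‖ ^ (2 * k) ∂μ =
      ∑ g ∈ Fintype.piFinset (fun _ : Fin k => I), ∑ h ∈ Fintype.piFinset (fun _ : Fin k => I),
        ((∏ i, a (g i)) * (starRingEnd ℂ) (∏ i, a (h i))).re *
          ∫ ω, chi (fun p => X p ω) (∑ i, g i + ∑ i, h i) ∂μ := by
    simp_rw [MON.norm_expand]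
    rw [integral_finset_sum _ fun g _ => integrable_finset_sum _ fun h _ => hint _ _]
    refine sum_congr rfl fun g _ => ?_
    rw [integral_finset_sum _ fun h _ => hint _ _]
    exact sum_congr rfl fun h _ => integral_const_mul _ _
  have h2 : ∫ ω, (∑ n ∈ J, c n * chi (fun p => X p ω) n) ^ (2 * k) ∂μ =
      ∑ g ∈ Fintype.piFinset (fun _ : Fin k => J), ∑ h ∈ Fintype.piFinset (fun _ : Fin k => J),
        ((∏ i, c (g i)) * ∏ i, c (h i)) * ∫ ω, chi (fun p => X p ω) (∑ i, g i + ∑ i, h i) ∂μ := by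
    simp_rw [MON.real_expand]
    rw [integral_finset_sum _ fun g _ => integrable_finset_sum _ fun h _ => hint _ _]
    refine sum_congr rfl fun g _ => ?_
    rw [integral_finset_sum _ fun h _ => hint _ _]
    exact sum_congr rfl fun h _ => integral_const_mul _ _
  rw [h1, h2]
  have hsub : Fintype.piFinset (fun _ : Fin k => I) ⊆ Fintype.piFinset (fun _ : Fin k => J) :=
    Fintype.piFinset_subset _ _ fun _ => hIJ
  have hcJ : ∀ g ∈ Fintype.piFinset (fun _ : Fin k => J), 0 ≤ ∏ i, c (g i) := by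
    intro g hg
    exact prod_nonneg fun i _ => hc _ (Fintype.mem_piFinset.1 hg i)
  have hA : ∀ g ∈ Fintype.piFinset (fun _ : Fin k => I), ‖∏ i, a (g i)‖ ≤ ∏ i, c (g i) := by
    intro g hg
    rw [norm_prod]
    exact prod_le_prod (fun i _ => norm_nonneg _) fun i _ => hac _ (Fintype.mem_piFinset.1 hg i)
  calc ∑ g ∈ Fintype.piFinset (fun _ : Fin k => I), ∑ h ∈ Fintype.piFinset (fun _ : Fin k => I),
        ((∏ i, a (g i)) * (starRingEnd ℂ) (∏ i, a (h i))).re *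
          ∫ ω, chi (fun p => X p ω) (∑ i, g i + ∑ i, h i) ∂μ
      ≤ ∑ g ∈ Fintype.piFinset (fun _ : Fin k => I), ∑ h ∈ Fintype.piFinset (fun _ : Fin k => I),
        ((∏ i, c (g i)) * ∏ i, c (h i)) * ∫ ω, chi (fun p => X p ω) (∑ i, g i + ∑ i, h i) ∂μ := by
        refine sum_le_sum fun g hg => sum_le_sum fun h hh => ?_
        refine mul_le_mul_of_nonneg_right ?_ (hE _).2.2
        refine (Complex.re_le_norm _).trans ?_
        rw [norm_mul, RCLike.norm_conj]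
        exact mul_le_mul (hA g hg) (hA h hh) (norm_nonneg _) (hcJ g (hsub hg))
    _ ≤ ∑ g ∈ Fintype.piFinset (fun _ : Fin k => I), ∑ h ∈ Fintype.piFinset (fun _ : Fin k => J),
        ((∏ i, c (g i)) * ∏ i, c (h i)) * ∫ ω, chi (fun p => X p ω) (∑ i, g i + ∑ i, h i) ∂μ := by
        refine sum_le_sum fun g hg => sum_le_sum_of_subset_of_nonneg hsub fun h hh _ => ?_
        exact mul_nonneg (mul_nonneg (hcJ g (hsub hg)) (hcJ h hh)) (hE _).2.2
    _ ≤ ∑ g ∈ Fintype.piFinset (fun _ : Fin k => J), ∑ h ∈ Fintype.piFinset (fun _ : Fin k => J),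
        ((∏ i, c (g i)) * ∏ i, c (h i)) * ∫ ω, chi (fun p => X p ω) (∑ i, g i + ∑ i, h i) ∂μ := by
        refine sum_le_sum_of_subset_of_nonneg hsub fun g hg _ => sum_nonneg fun h hh => ?_
        exact mul_nonneg (mul_nonneg (hcJ g hg) (hcJ h hh)) (hE _).2.2

end Pool.Agent.T2H86.RC
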