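import Pool.Agent.T2H86.RC.Stm

/-!
# Package MUL of project RC
-/

set_option autoImplicit false

namespace Pool.Agent.T2H86.RC

open Finset MeasureTheory ProbabilityTheory

namespace MUL

theorem norm_eq {P : Type} (q : P → ℕ) (n : P →₀ ℕ) (s : Finset P) (hs : n.support ⊆ s) :
    norm q n = ∏ p ∈ s, q p ^ (n p) := by
  unfold norm
  exact Finsupp.prod_of_support_subset n hs _ (fun p _ => pow_zero _)

theorem lam_eq {P : Type} (q : P → ℕ) (lam : (P →₀ ℕ) → ℂ) (hl : CoeffSystem q lam)
    (n : P →₀ ℕ) : ‖lam n‖ = ∏ p ∈ n.support, ‖lam (Finsupp.single p (n p))‖ := by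
  classical
  induction n using Finsupp.induction with
  | zero => simp [hl.one]
  | single_add a b g ha hb ih =>
    have hd : Disjoint (Finsupp.single a b).support g.support := by
      rw [Finsupp.support_single_ne_zero a hb]
      exact Finset.disjoint_singleton_left.2 ha
    have hga : g a = 0 := Finsupp.notMem_support_iff.1 ha
    rw [hl.mul _ _ hd, norm_mul, Finsupp.support_add_eq hd,
      Finsupp.support_single_ne_zero a hb, Finset.prod_union
        (Finset.disjoint_singleton_left.2 ha), Finset.prod_singleton, ih]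
    congr 1
    · rw [Finsupp.add_apply, Finsupp.single_eq_same, hga, add_zero]
    · apply Finset.prod_congr rfl
      intro p hp
      have hpa : p ≠ a := by
        rintro rfl
        exact ha hp
      rw [Finsupp.add_apply, Finsupp.single_eq_of_ne hpa, zero_add]

end MUL

theorem pMUL : S_MUL := by
  classical
  intro P q hq lam hl n s hs
  have h1 : ‖lam n‖ = ∏ p ∈ s, ‖lam (Finsupp.single p (n p))‖ := by
    rw [MUL.lam_eq q lam hl n]
    apply Finset.prod_subset hs
    intro p _ hp
    rw [Finsupp.notMem_support_iff.1 hp, Finsupp.single_zero, hl.one, norm_one]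
  refine ⟨h1, ?_⟩
  unfold cc bb
  rw [Finset.prod_mul_distrib, ← h1]
  congr 1
  rw [MUL.norm_eq q n s hs]
  push_cast
  rw [← Real.finset_prod_rpow s (fun p => ((q p : ℝ)) ^ (n p)) (fun p _ => by positivity)]
  apply Finset.prod_congr rfl
  intro p _
  rw [← Real.rpow_natCast (q p : ℝ) (n p), ← Real.rpow_mul (by positivity)]
  congr 1
  ring

end Pool.Agent.T2H86.RC
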