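import Pool.Agent.T2H86.RC.Stm

/-!
# Package POL
-/

set_option autoImplicit false

namespace Pool.Agent.T2H86.RC

open Finset MeasureTheory ProbabilityTheory

namespace POL

theorem summ : Summable (fun j : ℕ => ((j : ℝ) + 1) * (1 / 2 : ℝ) ^ j) := by
  have h1 : Summable (fun j : ℕ => (j : ℝ) ^ 1 * (1 / 2 : ℝ) ^ j) :=
    summable_pow_mul_geometric_of_norm_lt_one 1 (by norm_num)
  have h2 : Summable (fun j : ℕ => (1 / 2 : ℝ) ^ j) :=
    summable_geometric_of_lt_one (by norm_num) (by norm_num)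
  refine (h1.add h2).congr fun j => ?_
  rw [pow_one]
  ring

theorem chi_one {P : Type} (n : P →₀ ℕ) : chi (fun _ : P => (1 : ℝ)) n = 1 := by
  unfold chi Finsupp.prod
  apply Finset.prod_eq_one
  intro p _
  exact one_pow _

theorem norm_prod {P : Type} (q : P → ℕ) (n : P →₀ ℕ) (s : Finset P) (h : n.support ⊆ s) :
    (norm q n : ℝ) = ∏ p ∈ s, (q p : ℝ) ^ (n p) := by
  unfold norm
  rw [Finsupp.prod_of_support_subset n h _ (fun p _ => pow_zero _)]
  push_cast
  rfl

end POL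

open POL in
theorem pPOL (hFIN : S_FIN) (hMUL : S_MUL) (hBOX : S_BOX) : S_POL := by
  classical
  intro P q hq lam hlam
  obtain ⟨-, hf2, hf3, -⟩ := hFIN q hq
  obtain ⟨θ, hθ0, hθ1, hbd⟩ := hlam.bound
  have hqpos : ∀ p, (0 : ℝ) < q p := fun p => by
    have := hq.two_le p
    exact_mod_cast (by omega : 0 < q p)
  have hq2 : ∀ p, (2 : ℝ) ≤ q p := fun p => by exact_mod_cast hq.two_le p
  set C : ℝ := ∑' j : ℕ, ((j : ℝ) + 1) * (1 / 2 : ℝ) ^ j with hC
  have hC0 : 0 ≤ C := tsum_nonneg fun j => by positivity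
  obtain ⟨C', h'⟩ := hq.recip (1 / (C + 1)) (by positivity)
  refine ⟨Real.exp (C * |C'|), (Real.exp_pos _).le, ?_⟩
  intro x hx I hI
  have hx0 : (0 : ℝ) < x := by exact_mod_cast hx
  set s : Finset P := (hq.finite x).toFinset with hs
  have hs' : ∀ p ∈ s, q p ≤ x := fun p hp => by
    have := (hq.finite x).mem_toFinset.1 hp
    exact this
  set B : Finset (P →₀ ℕ) := s.finsupp (fun _ => range (x + 1)) with hB
  have hIB : I ⊆ B := by
    intro n hn
    obtain ⟨h1, h2⟩ := hf2 x n (hI n hn)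
    rw [hB, Finset.mem_finsupp_iff]
    refine ⟨fun p hp => (hq.finite x).mem_toFinset.2 (h1 p hp), fun p _ => ?_⟩
    rw [mem_range]
    have := h2 p
    omega
  set b : P → ℕ → ℝ := fun p j => ‖lam (Finsupp.single p j)‖ * ((q p : ℝ) ^ j)⁻¹ ^ 3 with hb
  have hb0 : ∀ p j, 0 ≤ b p j := fun p j => by
    simp only [hb]
    have := hqpos p
    positivity
  -- the weight of `n`
  have hw : ∀ n ∈ B, ‖lam n‖ * ((norm q n : ℝ))⁻¹ ^ 3 = ∏ p ∈ s, b p (n p) := by
    intro n hn
    rw [hB, Finset.mem_finsupp_iff] at hn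
    rw [(hMUL q hq lam hlam n s hn.1).1, norm_prod q n s hn.1, ← Finset.prod_inv_distrib,
      ← Finset.prod_pow, ← Finset.prod_mul_distrib]
  have hbox := hBOX s x b (fun _ : P => (1 : ℝ))
  simp only [one_pow, mul_one, chi_one] at hbox
  -- the local factors
  have hloc : ∀ p ∈ s, ∑ j ∈ range (x + 1), b p j ≤ 1 + C * (1 / (q p : ℝ)) := by
    intro p _
    set u : ℝ := 1 / (q p : ℝ) with hu
    have hu0 : 0 < u := one_div_pos.2 (hqpos p)
    have hu1 : u ≤ 1 / 2 := one_div_le_one_div_of_le (by norm_num) (hq2 p)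
    have hzero : b p 0 = 1 := by
      simp only [hb, Finsupp.single_zero, hlam.one, pow_zero, inv_one, one_pow, mul_one]
      exact norm_one
    have hj : ∀ j : ℕ, b p (j + 1) ≤ u * (((j + 1 : ℕ) : ℝ) + 1) * (1 / 2 : ℝ) ^ (j + 1) := by
      intro j
      have e1 : ‖lam (Finsupp.single p (j + 1))‖ ≤ (((j + 1 : ℕ) : ℝ) + 1) * (q p : ℝ) ^ (j + 1) := by
        refine (hbd p (j + 1)).trans (mul_le_mul_of_nonneg_left ?_ (by positivity))
        rw [← Real.rpow_natCast (q p : ℝ) (j + 1)]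
        apply Real.rpow_le_rpow_of_exponent_le (by linarith [hq2 p])
        have : (0 : ℝ) ≤ ((j + 1 : ℕ) : ℝ) := Nat.cast_nonneg _
        nlinarith
      have e2 : ((q p : ℝ) ^ (j + 1))⁻¹ = u ^ (j + 1) := by
        rw [hu, one_div, inv_pow]
      have e3 : (q p : ℝ) ^ (j + 1) * (u ^ (j + 1)) ^ 3 = (u ^ (j + 1)) ^ 2 := by
        have : (q p : ℝ) ^ (j + 1) * u ^ (j + 1) = 1 := by
          rw [← mul_pow, hu, mul_one_div_cancel (hqpos p).ne', one_pow]
        calc (q p : ℝ) ^ (j + 1) * (u ^ (j + 1)) ^ 3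
            = ((q p : ℝ) ^ (j + 1) * u ^ (j + 1)) * (u ^ (j + 1)) ^ 2 := by ring
          _ = _ := by rw [this, one_mul]
      have e4 : (u ^ (j + 1)) ^ 2 ≤ u * (1 / 2 : ℝ) ^ (j + 1) := by
        have f1 : u ^ (j + 1) ≤ (1 / 2 : ℝ) ^ (j + 1) := pow_le_pow_left₀ hu0.le hu1 _
        have f2 : u ^ (j + 1) ≤ u := by
          calc u ^ (j + 1) = u ^ j * u := pow_succ _ _
            _ ≤ 1 * u := mul_le_mul_of_nonneg_right (pow_le_one₀ hu0.le (by linarith)) hu0.le
            _ = u := one_mul _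
        rw [pow_two]
        exact mul_le_mul f2 f1 (pow_nonneg hu0.le _) hu0.le
      simp only [hb]
      rw [e2]
      calc ‖lam (Finsupp.single p (j + 1))‖ * (u ^ (j + 1)) ^ 3
          ≤ ((((j + 1 : ℕ) : ℝ) + 1) * (q p : ℝ) ^ (j + 1)) * (u ^ (j + 1)) ^ 3 :=
            mul_le_mul_of_nonneg_right e1 (by positivity)
        _ = (((j + 1 : ℕ) : ℝ) + 1) * (u ^ (j + 1)) ^ 2 := by rw [mul_assoc, e3]
        _ ≤ (((j + 1 : ℕ) : ℝ) + 1) * (u * (1 / 2 : ℝ) ^ (j + 1)) :=
            mul_le_mul_of_nonneg_left e4 (by positivity)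
        _ = _ := by ring
    rw [Finset.sum_range_succ', hzero]
    have e5 : ∑ j ∈ range x, b p (j + 1) ≤ C * u := by
      calc ∑ j ∈ range x, b p (j + 1)
          ≤ ∑ j ∈ range x, u * (((j + 1 : ℕ) : ℝ) + 1) * (1 / 2 : ℝ) ^ (j + 1) :=
            Finset.sum_le_sum fun j _ => hj j
        _ = u * ∑ j ∈ range x, (((j + 1 : ℕ) : ℝ) + 1) * (1 / 2 : ℝ) ^ (j + 1) := by
            rw [Finset.mul_sum]
            exact Finset.sum_congr rfl fun j _ => by ring
        _ ≤ u * C := by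
            apply mul_le_mul_of_nonneg_left _ hu0.le
            have f1 := summ.sum_le_tsum (range (x + 1)) fun j _ => by positivity
            rw [Finset.sum_range_succ'] at f1
            have f2 : (0 : ℝ) ≤ (((0 : ℕ) : ℝ) + 1) * (1 / 2 : ℝ) ^ 0 := by positivity
            linarith
        _ = C * u := mul_comm _ _
    linarith
  have hprod : ∏ p ∈ s, (∑ j ∈ range (x + 1), b p j) ≤ Real.exp (C * |C'|) * x := by
    calc ∏ p ∈ s, (∑ j ∈ range (x + 1), b p j)
        ≤ ∏ p ∈ s, Real.exp (C * (1 / (q p : ℝ))) := by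
          apply Finset.prod_le_prod
          · intro p _
            exact Finset.sum_nonneg fun j _ => hb0 p j
          · intro p hp
            refine (hloc p hp).trans ?_
            have := Real.add_one_le_exp (C * (1 / (q p : ℝ)))
            linarith
      _ = Real.exp (C * ∑ p ∈ s, 1 / (q p : ℝ)) := by
          rw [← Real.exp_sum, Finset.mul_sum]
      _ ≤ Real.exp (C * |C'| + Real.log x) := by
          apply Real.exp_le_exp.2
          have f1 := h' x hx s hs'
          have f2 : 0 ≤ Real.log x := Real.log_nonneg (by exact_mod_cast hx)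
          have f3 : C * (1 / (C + 1)) ≤ 1 := by
            rw [mul_one_div, div_le_one (by linarith)]
            linarith
          have f4 := mul_le_mul_of_nonneg_left f1 hC0
          have f5 : C * (1 / (C + 1) * Real.log x + C') ≤ Real.log x + C * |C'| := by
            have g1 : C * (1 / (C + 1)) * Real.log x ≤ 1 * Real.log x :=
              mul_le_mul_of_nonneg_right f3 f2
            have g2 : C * C' ≤ C * |C'| := mul_le_mul_of_nonneg_left (le_abs_self _) hC0
            nlinarith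
          linarith
      _ = Real.exp (C * |C'|) * x := by
          rw [Real.exp_add, Real.exp_log hx0]
  calc ∑ n ∈ I, ‖lam n‖ ≤ ∑ n ∈ I, (x : ℝ) ^ 3 * (‖lam n‖ * ((norm q n : ℝ))⁻¹ ^ 3) := by
        apply Finset.sum_le_sum
        intro n hn
        have hN1 : (1 : ℝ) ≤ (norm q n : ℝ) := by exact_mod_cast hf3 n
        have hNx : (norm q n : ℝ) ≤ x := by exact_mod_cast hI n hn
        have hN0 : (0 : ℝ) < norm q n := by linarith
        have e1 : (1 : ℝ) ≤ (x : ℝ) ^ 3 * ((norm q n : ℝ))⁻¹ ^ 3 := by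
          rw [← mul_pow, ← div_eq_mul_inv]
          exact one_le_pow₀ ((one_le_div hN0).2 hNx)
        calc ‖lam n‖ = ‖lam n‖ * 1 := (mul_one _).symm
          _ ≤ ‖lam n‖ * ((x : ℝ) ^ 3 * ((norm q n : ℝ))⁻¹ ^ 3) :=
              mul_le_mul_of_nonneg_left e1 (norm_nonneg _)
          _ = _ := by ring
    _ ≤ ∑ n ∈ B, (x : ℝ) ^ 3 * (‖lam n‖ * ((norm q n : ℝ))⁻¹ ^ 3) :=
        Finset.sum_le_sum_of_subset_of_nonneg hIB fun n _ _ => by positivity
    _ = (x : ℝ) ^ 3 * ∑ n ∈ B, ∏ p ∈ s, b p (n p) := by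
        rw [← Finset.mul_sum]
        congr 1
        exact Finset.sum_congr rfl hw
    _ ≤ (x : ℝ) ^ 3 * (Real.exp (C * |C'|) * x) := by
        apply mul_le_mul_of_nonneg_left _ (by positivity)
        rw [← hbox]
        exact hprod
    _ = Real.exp (C * |C'|) * (x : ℝ) ^ 4 := by ring

end Pool.Agent.T2H86.RC
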