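import Pool.Agent.T2H86.RC.Stm

set_option autoImplicit false

namespace Pool.Agent.T2H86.RC

open Finset MeasureTheory ProbabilityTheory

/-- Independence of continuous functions of the members of the family. -/
theorem pPRD : S_PRD := by
  intro P Ω _ μ _ X hX s F hF
  have h1 : iIndepFun (fun i : s => X (i : P)) μ :=
    hX.indep.precomp Subtype.val_injective
  have h2 := h1.integral_fun_prod_comp (𝕜 := ℝ) (f := fun i : s => F (i : P))
    (fun i => (hX.meas i).aemeasurable) (fun i => (hF i).aestronglyMeasurable)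
  have e1 : ∀ ω, ∏ p ∈ s, F p (X p ω) = ∏ i : s, F (i : P) (X (i : P) ω) := by
    intro ω
    rw [← Finset.prod_coe_sort s (fun p => F p (X p ω))]
  have e2 : ∏ p ∈ s, ∫ ω, F p (X p ω) ∂μ = ∏ i : s, ∫ ω, F (i : P) (X (i : P) ω) ∂μ := by
    rw [← Finset.prod_coe_sort s (fun p => ∫ ω, F p (X p ω) ∂μ)]
  rw [e2, ← h2]
  exact integral_congr_ae (Filter.Eventually.of_forall e1)

end Pool.Agent.T2H86.RC
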