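import Pool.Agent.T2H86.RC.Defs

/-!
Project RC (MP_21d687_nt, HARD, all four slots free).
THEOREM. Let `X p` be independent symmetric random variables with values in `[-1, 1]` (random quadratic
characters). For every coefficient system like that of a cuspidal representation of PGL_2 over any number
field: almost surely, for all `A, ε > 0`,
`∑_{N n ≤ x} λ(n) X(n) N(n)^(-1/2 - i t) ≪ x^ε` uniformly for all `x ≥ 1` and `|t| ≤ x^A`.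
13 independent packages; the deps are hypotheses of the package theorem.
-/

set_option autoImplicit false

namespace Pool.Agent.T2H86.RC

open Finset MeasureTheory ProbabilityTheory

/-- The random model: measurable, independent, symmetric, bounded by one. -/
structure Model {P Ω : Type} [MeasurableSpace Ω] (μ : Measure Ω) (X : P → Ω → ℝ) : Prop where
  meas : ∀ p, Measurable (X p)
  indep : iIndepFun X μ
  symm : ∀ p, μ.map (X p) = μ.map (fun ω => -X p ω)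
  bdd : ∀ p ω, |X p ω| ≤ 1

/-- `b_j(p) = |λ(p^j)| (N p)^(-j/2)` -/
noncomputable def bb {P : Type} (q : P → ℕ) (lam : (P →₀ ℕ) → ℂ) (p : P) (j : ℕ) : ℝ :=
  ‖lam (Finsupp.single p j)‖ * (q p : ℝ) ^ (-(j : ℝ) / 2)

/-- `c(n) = |λ(n)| N(n)^(-1/2)` -/
noncomputable def cc {P : Type} (q : P → ℕ) (lam : (P →₀ ℕ) → ℂ) (n : P →₀ ℕ) : ℝ :=
  ‖lam n‖ * (norm q n : ℝ) ^ (-(1 / 2) : ℝ)

/-- FIN (25 minutes, no deps). If `norm q n ≤ x`, then all primes `p` of the support of `n` have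
`q p ≤ x` and all exponents are at most `x` (since `2 ^ (n p) ≤ q p ^ (n p) ≤ norm q n ≤ x`; every
factor of the product is at least one). So there are only finitely many such `n` (they lie in
`Finset.finsupp S (fun _ => range (x + 1))`, `S` the finite set of the primes with `q p ≤ x`). The norm is
positive and multiplicative. -/
def S_FIN : Prop := ∀ {P : Type} (q : P → ℕ), PrimeSystem q →
  (∀ x : ℕ, {n : P →₀ ℕ | norm q n ≤ x}.Finite) ∧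
  (∀ (x : ℕ) (n : P →₀ ℕ), norm q n ≤ x → (∀ p ∈ n.support, q p ≤ x) ∧ ∀ p, n p ≤ x) ∧
  (∀ n : P →₀ ℕ, 1 ≤ norm q n) ∧
  (∀ m n : P →₀ ℕ, norm q (m + n) = norm q m * norm q n)

/-- MUL (25 minutes, no deps). Induction over the support (`Finsupp.induction`, or
`Finsupp.induction_on'`), `lam 0 = 1`, multiplicativity for disjoint supports; for `cc` use
`Real.finset_prod_rpow` or induction as well. `s` is any finite set containing the support. -/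
def S_MUL : Prop := ∀ {P : Type} (q : P → ℕ), PrimeSystem q → ∀ lam : (P →₀ ℕ) → ℂ,
  CoeffSystem q lam → ∀ (n : P →₀ ℕ) (s : Finset P), n.support ⊆ s →
  ‖lam n‖ = ∏ p ∈ s, ‖lam (Finsupp.single p (n p))‖ ∧
  cc q lam n = ∏ p ∈ s, bb q lam p (n p)

/-- BOX (25 minutes, no deps). Expand the product (`Finset.prod_sum` or `Finset.prod_univ_sum` or
induction over `s`); `chi y n = ∏_{p ∈ s} y p ^ (n p)` if the support of `n` is in `s`. -/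
def S_BOX : Prop := ∀ {P : Type} (s : Finset P) (J : ℕ) (b : P → ℕ → ℝ) (y : P → ℝ),
  ∏ p ∈ s, (∑ j ∈ range (J + 1), b p j * y p ^ j) =
    ∑ n ∈ s.finsupp (fun _ => range (J + 1)), (∏ p ∈ s, b p (n p)) * chi y n

/-- EXC (35 minutes, dep PRD). The expectation of `chi X m` is the product of the expectations of
the `X p ^ (m p)` (independence), which are `0` for odd exponents (symmetry: the laws of `X p` and `-X p`
agree, so `E X^j = E (-X)^j = -E X^j`) and lie in `[0, 1]` for even exponents. -/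
def S_EXC : Prop := ∀ {P Ω : Type} [MeasurableSpace Ω] (μ : Measure Ω) [IsProbabilityMeasure μ]
  (X : P → Ω → ℝ), Model μ X → ∀ m : P →₀ ℕ,
  Measurable (fun ω => chi (fun p => X p ω) m) ∧ (∀ ω, |chi (fun p => X p ω) m| ≤ 1) ∧
  0 ≤ ∫ ω, chi (fun p => X p ω) m ∂μ

/-- PRD (35 minutes, no deps). Independence: compose with the continuous functions `F p`, and use
`iIndepFun` for the finite family indexed by `s` (Mathlib: `iIndepFun.comp`, `iIndepFun.precomp`,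
`iIndepFun.integral_prod_eq_prod_integral` or induction over `s` with `iIndepFun.indepFun_finset_prod_of_notMem`
and `IndepFun.integral_mul_eq_mul_integral`). Everything is bounded because `|X p| ≤ 1` and `F p` is
continuous. -/
def S_PRD : Prop := ∀ {P Ω : Type} [MeasurableSpace Ω] (μ : Measure Ω) [IsProbabilityMeasure μ]
  (X : P → Ω → ℝ), Model μ X → ∀ (s : Finset P) (F : P → ℝ → ℝ), (∀ p, Continuous (F p)) →
  ∫ ω, ∏ p ∈ s, F p (X p ω) ∂μ = ∏ p ∈ s, ∫ ω, F p (X p ω) ∂μ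

/-- MON (60 minutes, dep EXC). Expand: with `z = ∑_{n ∈ I} a n X(n)` one has
`‖z‖^(2k) = z^k (conj z)^k = ∑ over (g, h) ∈ (Fin k → I)^2 of ∏ a (g i) ∏ conj (a (h i)) X(∑ g i + ∑ h i)`
(`Finset.sum_pow'`, `Finset.prod_univ_sum`, `chi y (m + n) = chi y m * chi y n`), the expectations of
`X(m)` are nonnegative, so that the expectation is at most
`∑ over (g, h) of ∏ c (g i) ∏ c (h i) E X(∑ g i + ∑ h i)`, and this is at most the same sum over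
`(Fin k → J)^2`, which is the right side. -/
def S_MON : Prop := ∀ {P Ω : Type} [MeasurableSpace Ω] (μ : Measure Ω) [IsProbabilityMeasure μ]
  (X : P → Ω → ℝ), Model μ X → ∀ (k : ℕ) (I J : Finset (P →₀ ℕ)), I ⊆ J →
  ∀ (a : (P →₀ ℕ) → ℂ) (c : (P →₀ ℕ) → ℝ), (∀ n ∈ I, ‖a n‖ ≤ c n) → (∀ n ∈ J, 0 ≤ c n) →
  ∫ ω, ‖∑ n ∈ I, a n * (chi (fun p => X p ω) n : ℂ)‖ ^ (2 * k) ∂μ ≤
    ∫ ω, (∑ n ∈ J, c n * chi (fun p => X p ω) n) ^ (2 * k) ∂μ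

/-- LOC (50 minutes, no deps). Put `y = ∑_{1 ≤ j ≤ J} b_j Y^j`, `|y| ≤ V`. Then
`(1 + y)^(2k) ≤ 1 + 2 k y + C y^2` for `|y| ≤ V` with a constant `C = C(V, k)` (binomial theorem, or
`Polynomial`/induction over `k`: the quotient `((1 + y)^m - 1 - m y) / y^2` is a polynomial in `y`).
`E Y = 0` by symmetry, so `E y ≤ ∑_{2 ≤ j ≤ J} b_j`, and
`y^2 ≤ 2 b_1^2 + 2 (∑_{j ≥ 2} b_j)^2 ≤ 2 b_1^2 + 2 V ∑_{j ≥ 2} b_j`. -/
def S_LOC : Prop := ∀ (V : ℝ) (k : ℕ), 0 ≤ V → ∃ C : ℝ, 0 ≤ C ∧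
  ∀ {Ω : Type} [MeasurableSpace Ω] (μ : Measure Ω) [IsProbabilityMeasure μ] (Y : Ω → ℝ),
  Measurable Y → μ.map Y = μ.map (fun ω => -Y ω) → (∀ ω, |Y ω| ≤ 1) →
  ∀ (J : ℕ) (b : ℕ → ℝ), 1 ≤ J → (∀ j, 0 ≤ b j) → b 0 = 1 → ∑ j ∈ range (J + 1), b j ≤ V →
  ∫ ω, (∑ j ∈ range (J + 1), b j * Y ω ^ j) ^ (2 * k) ∂μ ≤
    1 + C * (b 1 ^ 2 + ∑ j ∈ Icc 2 J, b j)

/-- SUM (50 minutes, no deps). Let `η = 1/2 - θ > 1/3`. Then `b_j(p) ≤ (j + 1) (q p)^(-j η)`, so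
`∑_j b_j(p) ≤ ∑_j (j + 1) 2^(-j η) < ∞` (a constant `V`), `b_1^2 = |λ(p)|^2 / q p`,
`b_2 ≤ (|λ(p)|^2 + 1) / q p`, and
`∑_{j ≥ 3} b_j ≤ (q p)^(-3 η) ∑_{i ≥ 0} (i + 4) 2^(-i η) ≤ C / q p`, because `3 η ≥ 1`. Sum over `p`, using
`recip` and `rankin`. -/
def S_SUM : Prop := ∀ {P : Type} (q : P → ℕ), PrimeSystem q → ∀ lam : (P →₀ ℕ) → ℂ,
  CoeffSystem q lam →
  (∃ V : ℝ, 0 ≤ V ∧ ∀ (p : P) (J : ℕ), ∑ j ∈ range (J + 1), bb q lam p j ≤ V) ∧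
  ∀ ε : ℝ, 0 < ε → ∃ C : ℝ, ∀ x : ℕ, 1 ≤ x → ∀ (J : ℕ) (S : Finset P), (∀ p ∈ S, q p ≤ x) →
    ∑ p ∈ S, (bb q lam p 1 ^ 2 + ∑ j ∈ Icc 2 J, bb q lam p j) ≤ ε * Real.log x + C

/-- MOM (60 minutes, deps FIN MUL BOX PRD MON LOC SUM). Let `I = {n : norm q n ≤ x}` (finite by FIN),
`s` the set of the primes with `q p ≤ x`, `box = s.finsupp (fun _ => range (x + 1)) ⊇ I`. By MON with
`c = cc q lam` the left side is at most `E (∑_{n ∈ box} c n X(n))^(2k)`, by MUL and BOX the sum is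
`∏_{p ∈ s} ∑_{j ≤ x} b_j(p) X_p^j`, by PRD the expectation is the product of the local ones, by LOC (with
the `V` of SUM) it is at most `∏ (1 + C (b_1^2 + ∑_{j ≥ 2} b_j)) ≤ exp (C ∑_p (...)) ≤ exp (C (ε' log x + C'))`,
with `C ε' ≤ ε`. Note `‖(N : ℂ)^(-1/2 - i t)‖ = N^(-1/2)`. -/
def S_MOM : Prop := ∀ {P Ω : Type} [MeasurableSpace Ω] (μ : Measure Ω) [IsProbabilityMeasure μ]
  (X : P → Ω → ℝ), Model μ X → ∀ (q : P → ℕ), PrimeSystem q → ∀ lam : (P →₀ ℕ) → ℂ,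
  CoeffSystem q lam → ∀ (k : ℕ) (ε : ℝ), 0 < ε → ∃ C : ℝ, ∀ x : ℕ, 1 ≤ x → ∀ t : ℝ,
  ∫ ω, ‖centralSum q lam (fun p => X p ω) x t‖ ^ (2 * k) ∂μ ≤ C * (x : ℝ) ^ ε

/-- POL (45 minutes, deps FIN MUL BOX). `∑_{n ∈ I} |λ(n)| ≤ x^3 ∑_{n ∈ I} |λ(n)| N(n)^(-3)`, and the sum
over the box `s.finsupp (fun _ => range (x + 1)) ⊇ I` is `∏_{p ∈ s} ∑_{j ≤ x} |λ(p^j)| (q p)^(-3 j)`
(MUL for the norms, BOX with `y = 1`), which is at most
`∏ (1 + ∑_{j ≥ 1} (j + 1) (q p)^(-2 j)) ≤ ∏ (1 + C / q p) ≤ exp (C ∑_p 1 / q p) ≤ C' x`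
(`recip` with `ε = 1 / (C + 1)`). -/
def S_POL : Prop := ∀ {P : Type} (q : P → ℕ), PrimeSystem q → ∀ lam : (P →₀ ℕ) → ℂ,
  CoeffSystem q lam → ∃ K : ℝ, 0 ≤ K ∧ ∀ (x : ℕ), 1 ≤ x → ∀ I : Finset (P →₀ ℕ),
  (∀ n ∈ I, norm q n ≤ x) → ∑ n ∈ I, ‖lam n‖ ≤ K * (x : ℝ) ^ 4

/-- LIP (35 minutes, deps FIN POL). The finsum is a finite sum over `{n : norm q n ≤ x}`;
`|chi χ n| ≤ 1`; `|N^(-1/2 - i t) - N^(-1/2 - i t')| ≤ |t - t'| log N ≤ |t - t'| x`. -/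
def S_LIP : Prop := ∀ {P : Type} (q : P → ℕ), PrimeSystem q → ∀ lam : (P →₀ ℕ) → ℂ,
  CoeffSystem q lam → ∃ K : ℝ, 0 ≤ K ∧ ∀ (χ : P → ℝ), (∀ p, |χ p| ≤ 1) → ∀ (x : ℕ), 1 ≤ x →
  (∀ t t' : ℝ, ‖centralSum q lam χ x t - centralSum q lam χ x t'‖ ≤ K * (x : ℝ) ^ 5 * |t - t'|) ∧
  ∀ t : ℝ, ‖centralSum q lam χ x t‖ ≤ K * (x : ℝ) ^ 5

/-- MEA (20 minutes, dep FIN). The finsum is a finite sum of measurable functions. -/
def S_MEA : Prop := ∀ {P Ω : Type} [MeasurableSpace Ω] (μ : Measure Ω) (X : P → Ω → ℝ),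
  Model μ X → ∀ (q : P → ℕ), PrimeSystem q → ∀ (lam : (P →₀ ℕ) → ℂ) (x : ℕ) (t : ℝ),
  Measurable (fun ω => centralSum q lam (fun p => X p ω) x t)

/-- BCA (60 minutes, no deps). For natural numbers `m` and `r ≥ 1` consider the net of the points
`j / x^5`, `j` an integer, `|j| ≤ x^(m + 5) + 1`, and the events `E_x`: `‖F x t‖ > x^(1/r)` for some `t` of
the net. By Markov's inequality for the moment of order `2k`, with `ε = 1`, the probability of `E_x` is at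
most `(2 x^(m+5) + 3) C x^(1 - 2k/r)`, summable if `2k/r ≥ m + 8`. By the lemma of Borel and Cantelli
(`MeasureTheory.ae_eventually_notMem`) almost surely `E_x` holds for finitely many `x` only; then
`‖F x t‖ ≤ x^(1/r) + K` for all `|t| ≤ x^m` and all large `x` (Lipschitz bound), and for the finitely many
other `x` use the trivial bound `K x^5`. Intersect over all `m, r`; given `A, ε` take `m ≥ A`, `1/r ≤ ε`. -/
def S_BCA : Prop := ∀ {Ω : Type} [MeasurableSpace Ω] (μ : Measure Ω) [IsProbabilityMeasure μ]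
  (F : ℕ → ℝ → Ω → ℂ), (∀ x t, Measurable (F x t)) →
  (∀ (k : ℕ) (ε : ℝ), 0 < ε → ∃ C : ℝ, ∀ x : ℕ, 1 ≤ x → ∀ t : ℝ,
    ∫ ω, ‖F x t ω‖ ^ (2 * k) ∂μ ≤ C * (x : ℝ) ^ ε) →
  (∃ K : ℝ, 0 ≤ K ∧ ∀ x : ℕ, 1 ≤ x → ∀ ω,
    (∀ t t' : ℝ, ‖F x t ω - F x t' ω‖ ≤ K * (x : ℝ) ^ 5 * |t - t'|) ∧
    ∀ t : ℝ, ‖F x t ω‖ ≤ K * (x : ℝ) ^ 5) →
  ∀ᵐ ω ∂μ, ∀ A ε : ℝ, 0 < A → 0 < ε → ∃ C : ℝ, ∀ x : ℕ, 1 ≤ x → ∀ t : ℝ, |t| ≤ (x : ℝ) ^ A →
    ‖F x t ω‖ ≤ C * (x : ℝ) ^ ε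

end Pool.Agent.T2H86.RC
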